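import Pool.Agent.helper19.QP.SpecM
import Pool.Agent.helper99.IG.ME

/-!
MP_ebc808, project QP (Theorem Q**), row KE2: one small coefficient for every prime
-/

set_option autoImplicit false

open Polynomial Pool.Agent.helper7.IG

noncomputable section

namespace Pool.Agent.QP

theorem KE2_an {l B : ℕ} {u : Vx} (h : u ∈ AN l B) : Nb l (B, 1) u := by
  unfold AN at h
  split_ifs at h with hf
  · exact (Set.Finite.mem_toFinset hf).1 h
  · exact absurd h (Finset.notMem_empty _)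

theorem KE2_odd {l B : ℕ} (hl : Odd l) (hB : Odd B) {u : Vx} (h : Nb l (B, 1) u) : Odd u.1 := by
  rcases h with ⟨h1, _⟩ | ⟨h1, _⟩
  · rw [h1]
    exact hl.mul hB
  · have h2 : B = l * u.1 := h1
    rw [h2] at hB
    exact (Nat.odd_mul.1 hB).2

theorem KE2_aev {x : LL} {S : Subalgebra kk LL} (hx : x ∈ S) (Q : Polynomial kk) : aeval x Q ∈ S := by
  have h : Algebra.adjoin kk {x} ≤ S := Algebra.adjoin_le (Set.singleton_subset_iff.2 hx)
  exact h (Polynomial.aeval_mem_adjoin_singleton kk x)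

/-- values of polynomials in two variables -/
theorem KE2_ev2 {x y : LL} {S : Subalgebra kk LL} (hx : x ∈ S) (hy : y ∈ S) (G : Polynomial (Polynomial kk)) :
    ev2 G x y ∈ S := by
  unfold ev2
  rw [Polynomial.eval₂_eq_sum_range]
  exact sum_mem fun i _ => mul_mem (KE2_aev hy _) (pow_mem hx _)

/-- the Laurent series without negative exponents -/
def KE2_S : Subalgebra kk LL where
  carrier := {x | ∀ n : ℤ, n < 0 → x.coeff n = 0}
  mul_mem' := by
    intro x y hx hy n hn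
    by_cases hx0 : x = 0
    · rw [hx0, zero_mul, HahnSeries.coeff_zero]
    by_cases hy0 : y = 0
    · rw [hy0, mul_zero, HahnSeries.coeff_zero]
    have h1 : 0 ≤ x.order := by
      by_contra h
      push Not at h
      exact hx0 (HahnSeries.coeff_order_eq_zero.1 (hx _ h))
    have h2 : 0 ≤ y.order := by
      by_contra h
      push Not at h
      exact hy0 (HahnSeries.coeff_order_eq_zero.1 (hy _ h))
    apply HahnSeries.coeff_eq_zero_of_lt_order
    rw [HahnSeries.order_mul hx0 hy0]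
    omega
  add_mem' := by
    intro x y hx hy n hn
    rw [HahnSeries.coeff_add, hx n hn, hy n hn, add_zero]
  algebraMap_mem' := by
    intro r n hn
    have h0 : algebraMap kk LL r = HahnSeries.C r := rfl
    rw [h0, HahnSeries.C_apply, HahnSeries.coeff_single]
    exact if_neg hn.ne

theorem KE2_ane {e : ℕ} (he : e ≠ 0) (ζ : kkˣ) {Q : Polynomial kk} (hQ : Q ≠ 0) : aeval (sig e ζ DDk) Q ≠ 0 := by
  intro h
  exact hQ ((transcendental_iff.1 (ME_transc_sig he ζ)) Q h)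

theorem KE2_inclC (a : kk) : incl (C a : Polynomial kk) = algebraMap kk LL a := by
  show HahnSeries.ofPowerSeries ℤ kk (((C a : Polynomial kk) : PowerSeries kk)) = HahnSeries.C a
  rw [Polynomial.coe_C, HahnSeries.ofPowerSeries_C]

/-- the denominators are not zero -/
theorem KE2_PI {l B : ℕ} (hl : Odd l) (hB : Odd B) {Q : Polynomial kk} (hQ : Q ≠ 0) : PI0 Q l B ≠ 0 := by
  unfold PI0
  have hB0 : B ≠ 0 := by
    rintro rfl
    exact absurd hB (by decide)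
  refine mul_ne_zero (KE2_ane hB0 1 hQ) (Finset.prod_ne_zero_iff.2 fun u hu => ?_)
  have h3 := KE2_odd hl hB (KE2_an hu)
  refine KE2_ane ?_ u.2 hQ
  intro h4
  rw [h4] at h3
  exact absurd h3 (by decide)

/-- the denominators are modular -/
theorem KE2_PIM (hME : ME_stmt) {l B : ℕ} (hl : Odd l) (hB : Odd B) (Q : Polynomial kk) :
    PI0 Q l B ∈ MM.toSubalgebra := by
  unfold PI0
  refine mul_mem (KE2_aev (hME B 1 DDk hB DDk_mem) Q) (prod_mem fun u hu => ?_)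
  exact KE2_aev (hME u.1 u.2 DDk (KE2_odd hl hB (KE2_an hu)) DDk_mem) Q

/-- the symmetric function is modular -/
theorem KE2_TLM (hME : ME_stmt) {l B : ℕ} (hl : Odd l) (hB : Odd B) {F : LL} (hF : F ∈ MM) :
    TL l B F ∈ MM.toSubalgebra := by
  unfold TL
  refine add_mem (hME B 1 _ hB hF) (sum_mem fun u hu => ?_)
  exact hME u.1 u.2 _ (KE2_odd hl hB (KE2_an hu)) hF

/-- the arithmetic at the end -/
theorem KE2_ar (C₁ M a b s l B n₀ : ℕ) (hl : 5 ≤ l) (hB : 0 < B)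
    (h : ((B * (l * s + n₀) : ℕ) : ℤ) ≤ ((B * (C₁ * ((a + b) * (M * (l + 2)))) : ℕ) : ℤ)) :
    n₀ ≤ (s + 3 * (a + b) * M * C₁) * l := by
  have h1 : B * (l * s + n₀) ≤ B * (C₁ * ((a + b) * (M * (l + 2)))) := by exact_mod_cast h
  have h2 : l * s + n₀ ≤ C₁ * ((a + b) * (M * (l + 2))) := Nat.le_of_mul_le_mul_left h1 hB
  have h3 : C₁ * ((a + b) * (M * (l + 2))) ≤ 3 * (a + b) * M * C₁ * l := by
    calc C₁ * ((a + b) * (M * (l + 2))) = C₁ * (a + b) * M * (l + 2) := by ring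
      _ ≤ C₁ * (a + b) * M * (3 * l) := Nat.mul_le_mul_left _ (by omega)
      _ = 3 * (a + b) * M * C₁ * l := by ring
  calc n₀ ≤ l * s + n₀ := Nat.le_add_left _ _
    _ ≤ 3 * (a + b) * M * C₁ * l := h2.trans h3
    _ ≤ (s + 3 * (a + b) * M * C₁) * l := Nat.mul_le_mul_right _ (Nat.le_add_left _ _)

theorem KE2 (hLEMC : LEMC_stmt) (hPMM : PMM_stmt) (hINT : INT_stmt) (hREL : REL_stmt) (hKEA : KEA_stmt) (hYI2 : YI2_stmt) (hNVH : NVH_stmt) (hOR2 : OR2_stmt) (hFRA : FRA_stmt) (hPOL : POL_stmt) (hHTL : HTL_stmt) (hHHC : HHC_stmt) (hINO : INO_stmt) (hME : ME_stmt) : KE2_stmt := by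
  intro F N hF hneg hsq hcop hnc hoddc
  have hodd : Odd N := by
    rw [← Nat.coprime_two_right]
    exact Nat.Coprime.coprime_dvd_right (by norm_num) hcop
  have hF'M : PN N F ∈ MM := hPMM N F hodd hsq hF.1
  have hnc' : ∀ c : kk, PN N F ≠ algebraMap kk LL c := by
    intro c hc
    obtain ⟨c', hc'⟩ := hLEMC F N hF hsq hcop ⟨1, C c, one_ne_zero, by rw [map_one, one_mul, hc, KE2_inclC]⟩
    exact hnc c' hc'
  have hneg' : ∀ n : ℤ, n < 0 → (PN N F).coeff n = 0 := by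
    intro n hn
    rw [PN_coeff, hneg n hn, ite_self]
  obtain ⟨G, hG0, hGW⟩ := hREL (PN N F) hF'M hoddc
  obtain ⟨s, hs1, hs2⟩ : ∃ s : ℕ, (∀ n : ℤ, n < s → (ev2 (derivative G) (PN N F) (sig 3 1 (PN N F))).coeff n = 0) ∧
      (ev2 (derivative G) (PN N F) (sig 3 1 (PN N F))).coeff s ≠ 0 := by
    have hWS : ev2 (derivative G) (PN N F) (sig 3 1 (PN N F)) ∈ KE2_S :=
      KE2_ev2 (S := KE2_S) hneg' (fun n hn => sig_coeff_neg_of (by norm_num) 1 _ hneg' n hn) _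
    have h1 : 0 ≤ (ev2 (derivative G) (PN N F) (sig 3 1 (PN N F))).order := by
      by_contra h
      push Not at h
      exact hGW (HahnSeries.coeff_order_eq_zero.1 (hWS _ h))
    obtain ⟨s, hs⟩ := Int.eq_ofNat_of_zero_le h1
    refine ⟨s, fun n hn => HahnSeries.coeff_eq_zero_of_lt_order (by rw [hs]; exact hn), ?_⟩
    have h2 : ((s : ℕ) : ℤ) = (ev2 (derivative G) (PN N F) (sig 3 1 (PN N F))).order := hs.symm
    rw [h2]
    exact fun h => hGW (HahnSeries.coeff_order_eq_zero.1 h)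
  obtain ⟨b, hb⟩ : ∃ b : ℕ, ∀ i, (G.coeff i).natDegree ≤ b := by
    refine ⟨∑ i ∈ Finset.range (G.natDegree + 1), (G.coeff i).natDegree, fun i => ?_⟩
    by_cases hi : i < G.natDegree + 1
    · exact Finset.single_le_sum (f := fun i => (G.coeff i).natDegree) (fun _ _ => Nat.zero_le _) (Finset.mem_range.2 hi)
    · rw [Polynomial.coeff_eq_zero_of_natDegree_lt (by omega), Polynomial.natDegree_zero]
      exact Nat.zero_le _
  set a : ℕ := G.natDegree with hadef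
  obtain ⟨Q, M, hQ0, hDen⟩ := hINT (PN N F) hF'M
  obtain ⟨C₁, hC₁⟩ := hOR2 N hodd hsq
  refine ⟨s + 3 * (a + b) * M * C₁, fun l hl hl5 hNl => ?_⟩
  have hl2 : l ≠ 2 := by omega
  have hl3 : l ≠ 3 := by omega
  have hlodd : Odd l := hl.odd_of_ne_two hl2
  obtain ⟨B1, hB1o, hB1⟩ := hNVH F N l hF hodd hsq hl hl2 hl3 hNl hnc'
  obtain ⟨B2, hB2o, hB2⟩ := hC₁ F l hF hl hl2 hl3 hNl
  obtain ⟨B, hBo, hlB, h1B, h2B⟩ : ∃ B : ℕ, Odd B ∧ l ∣ B ∧ B1 ∣ B ∧ B2 ∣ B :=
    ⟨B1 * B2 * l, (hB1o.mul hB2o).mul hlodd, dvd_mul_left _ _, (dvd_mul_right B1 B2).trans (dvd_mul_right _ _),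
      (dvd_mul_left B2 B1).trans (dvd_mul_right _ _)⟩
  have hB0 : B ≠ 0 := by
    intro h
    rw [h] at hBo
    exact absurd hBo (by decide)
  have hBpos : 0 < B := Nat.pos_of_ne_zero hB0
  have hBz : (0 : ℤ) < B := by exact_mod_cast hBpos
  have h3Bo : Odd (3 * B) := Odd.mul (by decide) hBo
  have hHU : HU l B (PN N F) (l * B, 1) ≠ 0 := hB1 B hBo h1B
  -- the least exponent
  obtain ⟨n₀, hn1, hn2⟩ : ∃ n₀ : ℕ, (∀ n : ℤ, n < n₀ → (PN N F).coeff (l * n) + (PN N F).coeff n = 0) ∧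
      (PN N F).coeff (l * n₀) + (PN N F).coeff n₀ ≠ 0 := by
    have ho6 : (HU l B (PN N F) (l * B, 1)).coeff (HU l B (PN N F) (l * B, 1)).order ≠ 0 :=
      fun h8 => hHU (HahnSeries.coeff_order_eq_zero.1 h8)
    rw [hHHC l B (PN N F) hl hl2 hBo hlB] at ho6
    split_ifs at ho6 with hd
    · obtain ⟨m, hm⟩ := hd
      have hB' : (B : ℤ) ≠ 0 := hBz.ne'
      rw [hm, Int.mul_ediv_cancel_left _ hB'] at ho6
      have hm0 : 0 ≤ m := by
        by_contra h9
        push Not at h9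
        apply ho6
        have h10 : (l : ℤ) * m < 0 := by
          have hl' : (0 : ℤ) < l := by exact_mod_cast hl.pos
          nlinarith
        rw [hneg' _ h9, hneg' _ h10, add_zero]
      obtain ⟨m', rfl⟩ := Int.eq_ofNat_of_zero_le hm0
      refine ⟨m', fun n hn => ?_, ho6⟩
      have h11 := hHHC l B (PN N F) hl hl2 hBo hlB (B * n)
      rw [if_pos (dvd_mul_right _ _), Int.mul_ediv_cancel_left _ hB'] at h11
      rw [← h11]
      apply HahnSeries.coeff_eq_zero_of_lt_order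
      rw [hm]
      exact mul_lt_mul_of_pos_left hn hBz
    · exact absurd rfl ho6
  refine ⟨n₀, ?_, by push_cast; exact hn2⟩
  by_cases hls : n₀ ≤ l * s
  · calc n₀ ≤ l * s := hls
      _ = s * l := mul_comm _ _
      _ ≤ (s + 3 * (a + b) * M * C₁) * l := Nat.mul_le_mul_right _ (Nat.le_add_right _ _)
  push Not at hls
  obtain ⟨hE1, hE2⟩ := hKEA (PN N F) G l B s n₀ hneg' hl hl2 hBo hlB hG0 hs1 hs2 hn1 hn2 hls
  have hE0 : EE2 G l B (PN N F) ≠ 0 := by
    intro h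
    rw [h, HahnSeries.coeff_zero] at hE1
    exact hE1 rfl
  have hP0 : PI0 Q l B ^ a * PI0 Q l (3 * B) ^ b ≠ 0 :=
    mul_ne_zero (pow_ne_zero _ (KE2_PI hlodd hBo hQ0)) (pow_ne_zero _ (KE2_PI hlodd h3Bo hQ0))
  have hYdef : Y2 (PN N F) Q G a b l B = PI0 Q l B ^ a * PI0 Q l (3 * B) ^ b * EE2 G l B (PN N F) := rfl
  have hY : Y2 (PN N F) Q G a b l B ≠ 0 := by
    rw [hYdef]
    exact mul_ne_zero hP0 hE0
  have hYM : Y2 (PN N F) Q G a b l B ∈ MM := by
    have h12 : Y2 (PN N F) Q G a b l B ∈ MM.toSubalgebra := by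
      rw [hYdef]
      exact mul_mem (mul_mem (pow_mem (KE2_PIM hME hlodd hBo Q) _) (pow_mem (KE2_PIM hME hlodd h3Bo Q) _))
        (KE2_ev2 (KE2_TLM hME hlodd hBo hF'M) (KE2_TLM hME hlodd h3Bo hF'M) G)
    exact h12
  obtain ⟨hYint, hPint, hYval⟩ := hYI2 (PN N F) Q G M a b l B hDen hl hl2 hBo hlB hadef.ge hb
  obtain ⟨Φ, hΦ⟩ := hFRA
  obtain ⟨O, hOc, hO⟩ := hB2 Q G a b Φ B hBo h2B
  obtain ⟨t, P, hPP, hPd, hPc, hPe⟩ := hPOL Φ hΦ B (Y2 (PN N F) Q G a b l B) O hBo hYM hO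
  obtain ⟨n, hn, hnc⟩ := hHTL B ((a + b) * (M * (l + 2)) * 2 ^ t) C₁ (Y2 (PN N F) Q G a b l B ^ (2 ^ t)) hB0
    (pow_ne_zero _ hY) (hYint.pow _)
    (fun V hV hx => by
      rw [map_pow, pow_mul]
      exact pow_le_pow_left' (hYval V hV hx) _)
    ⟨P, hPP, hPd.trans hOc, hPc, hPe⟩
  have ho1 : (Y2 (PN N F) Q G a b l B ^ (2 ^ t)).order ≤ (n : ℤ) := HahnSeries.order_le_of_coeff_ne_zero hnc
  rw [HahnSeries.order_pow, nsmul_eq_mul] at ho1
  have ho2 : (Y2 (PN N F) Q G a b l B).order ≤ ((B * (C₁ * ((a + b) * (M * (l + 2)))) : ℕ) : ℤ) := by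
    have h5 : (n : ℤ) ≤ ((B * (C₁ * ((a + b) * (M * (l + 2)) * 2 ^ t)) : ℕ) : ℤ) := by exact_mod_cast hn
    have h6 : ((2 ^ t : ℕ) : ℤ) * (Y2 (PN N F) Q G a b l B).order ≤
        ((2 ^ t : ℕ) : ℤ) * ((B * (C₁ * ((a + b) * (M * (l + 2)))) : ℕ) : ℤ) := by
      refine (ho1.trans h5).trans (le_of_eq ?_)
      push_cast
      ring
    exact le_of_mul_le_mul_left h6 (by positivity)
  have ho3 : (Y2 (PN N F) Q G a b l B).order =
      (PI0 Q l B ^ a * PI0 Q l (3 * B) ^ b).order + (EE2 G l B (PN N F)).order := by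
    rw [hYdef]
    exact HahnSeries.order_mul hP0 hE0
  have ho4 : 0 ≤ (PI0 Q l B ^ a * PI0 Q l (3 * B) ^ b).order := by
    by_contra h7
    push Not at h7
    exact hP0 (HahnSeries.coeff_order_eq_zero.1 (hINO B 1 _ hB0 hPint _ h7))
  have ho5 : ((B * (l * s + n₀) : ℕ) : ℤ) ≤ (EE2 G l B (PN N F)).order := by
    by_contra h8
    push Not at h8
    exact hE0 (HahnSeries.coeff_order_eq_zero.1 (hE2 _ h8))
  exact KE2_ar C₁ M a b s l B n₀ hl5 hBpos (by linarith)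

end Pool.Agent.QP
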